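import Mathlib
import Pool.Agent.Y201.LI.Stm

/-!
# LI-EXT: a finite extension keeps its degree after adjoining algebraically independent elements
-/

set_option autoImplicit false

namespace Pool.Agent.Y220.LI

open MvPolynomial IntermediateField Module

/-- linear independence over the algebra generated by an algebraically independent family -/
theorem linInd_adjoin {R M Ω ι κ : Type*} [Field R] [Field M] [Field Ω] [Algebra R M]
    [Algebra M Ω] [Algebra R Ω] [IsScalarTower R M Ω] (τ : ι → Ω)
    (hτ : AlgebraicIndependent M τ) (b : κ → M) (hb : LinearIndependent R b) :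
    LinearIndependent (Algebra.adjoin R (Set.range τ)) (fun i => algebraMap M Ω (b i)) := by
  classical
  rw [linearIndependent_iff']
  intro s g hg i hi
  have hmem : ∀ j, ∃ p : MvPolynomial ι R, aeval τ p = ((g j : Algebra.adjoin R (Set.range τ)) : Ω) := by
    intro j
    have h5 : ∀ x ∈ Algebra.adjoin R (Set.range τ), ∃ p : MvPolynomial ι R, aeval τ p = x := by
      intro x hx
      rw [Algebra.adjoin_range_eq_range_aeval] at hx
      exact hx
    exact h5 _ (g j).2
  choose p hp using hmem
  have h0 : aeval τ (∑ j ∈ s, C (b j) * map (algebraMap R M) (p j)) = 0 := by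
    rw [map_sum]
    rw [← hg]
    refine Finset.sum_congr rfl fun j _ => ?_
    rw [map_mul, aeval_C, aeval_map_algebraMap, hp j, Algebra.smul_def, mul_comm]
    rfl
  have h1 : ∑ j ∈ s, C (b j) * map (algebraMap R M) (p j) = 0 :=
    (algebraicIndependent_iff.1 hτ) _ h0
  have h2 : p i = 0 := by
    ext m
    have h3 : ∑ j ∈ s, (coeff m (p j)) • b j = 0 := by
      have h4 := congrArg (coeff m) h1
      rw [coeff_sum, coeff_zero] at h4
      rw [← h4]
      refine Finset.sum_congr rfl fun j _ => ?_
      rw [coeff_C_mul, coeff_map, Algebra.smul_def, mul_comm]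
    simpa using (linearIndependent_iff'.1 hb) s _ h3 i hi
  apply Subtype.ext
  rw [← hp i, h2, map_zero]
  rfl

open scoped IntermediateField.algebraAdjoinAdjoin in
theorem linDisj {R M Ω ι : Type*} [Field R] [Field M] [Field Ω] [Algebra R M]
    [Algebra M Ω] [Algebra R Ω] [IsScalarTower R M Ω] (τ : ι → Ω)
    (hτ : AlgebraicIndependent M τ) :
    (adjoin R (Set.range τ)).LinearDisjoint M := by
  let b := Basis.ofVectorSpace R M
  refine IntermediateField.LinearDisjoint.of_basis_right' b ?_
  have h := linInd_adjoin τ hτ b b.linearIndependent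
  exact (LinearIndependent.iff_fractionRing (Algebra.adjoin R (Set.range τ))
    (adjoin R (Set.range τ))).1 h

theorem rank_eq {R M Ω ι : Type} [Field R] [Field M] [Field Ω] [Algebra R M]
    [Algebra M Ω] [Algebra R Ω] [IsScalarTower R M Ω] [Algebra.IsAlgebraic R M] (τ : ι → Ω)
    (hτ : AlgebraicIndependent M τ) (htop : adjoin M (Set.range τ) = ⊤) :
    Module.rank (adjoin R (Set.range τ)) Ω = Module.rank R M := by
  have h := (linDisj (R := R) τ hτ).rank_right_mul_adjoin_rank_eq_of_isAlgebraic_right
  have h1 : adjoin M ((adjoin R (Set.range τ) : IntermediateField R Ω) : Set Ω) = ⊤ := by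
    rw [eq_top_iff, ← htop]
    exact adjoin.mono _ _ _ (subset_adjoin _ _)
  rw [← h, h1]
  have h2 : Module.rank (⊤ : IntermediateField M Ω) Ω = 1 := IntermediateField.rank_top
  rw [h2, mul_one]

theorem ext : Pool.Agent.Y201.LI.S_EXT := by
  intro R M Ω ι _ _ _ _ _ _ _ _ _ τ hτ htop
  have h := rank_eq (R := R) τ hτ htop
  constructor
  · rw [FiniteDimensional, ← Module.rank_lt_aleph0_iff, h]
    exact Module.rank_lt_aleph0 R M
  · rw [finrank, finrank, h]

end Pool.Agent.Y220.LI
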